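import Pool.Agent.Helper11.LE.Goals1
import Pool.Agent.Helper19.RD.FIN

/-!
# Project LE (MP_fc6b1e_nt), packet LE-FIN
-/

namespace Pool.Agent.Helper31.LE

open NumberField IsDedekindDomain Pool.Agent.Helper51.SigLeo
open Pool.Agent.Helper51.RP Pool.Agent.Helper42.RD Pool.Agent.Helper11.LE

theorem ordv_div {K : Type} [Field K] [NumberField K] (w : HeightOneSpectrum (𝓞 K)) (x y : Kˣ) :
    ordv w ((x / y : Kˣ) : K) = ordv w (x : K) - ordv w (y : K) := by
  have hx : w.valuation K (x : K) ≠ 0 := by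
    rw [Ne, map_eq_zero]
    exact x.ne_zero
  have hy : w.valuation K (y : K) ≠ 0 := by
    rw [Ne, map_eq_zero]
    exact y.ne_zero
  unfold ordv
  rw [Units.val_div_eq_div_val, map_div₀, WithZero.log_div hx hy]
  ring

theorem l_fin : L_FIN := by
  intro p hp k _ _ L K _ _ T R al hdat
  classical
  obtain ⟨n, hn⟩ := Pool.Agent.Helper19.RD.d_fin p K
  haveI : Finite R := hdat.fin
  haveI := Fintype.ofFinite R
  haveI : NeZero p := ⟨hp.out.ne_zero⟩
  refine ⟨n * Fintype.card (R → ZMod p), fun F hF => ?_⟩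
  set φ : Kˣ → (R → ZMod p) := fun x w => ((ordv w.1 (x : K) : ℤ) : ZMod p) with hφ
  have hcard : F.card ≤ n * (Finset.image φ F).card := by
    apply Finset.card_le_mul_card_image
    intro C hC
    obtain ⟨y, hy, hyC⟩ := Finset.mem_image.mp hC
    set G : Finset Kˣ := (F.filter fun x => φ x = C).image fun x => x / y with hG
    have hGc : G.card = (F.filter fun x => φ x = C).card :=
      Finset.card_image_of_injective _ fun a b h => div_left_injective h
    rw [← hGc]
    refine hn G ?_ ?_
    · intro z hz w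
      rw [hG, Finset.mem_image] at hz
      obtain ⟨x, hx, rfl⟩ := hz
      rw [Finset.mem_filter] at hx
      rw [ordv_div]
      by_cases hw : w ∈ R
      · have h1 : φ x ⟨w, hw⟩ = φ y ⟨w, hw⟩ := by rw [hx.2, hyC]
        have h2 : ((ordv w (x : K) : ℤ) : ZMod p) = ((ordv w (y : K) : ℤ) : ZMod p) := h1
        rw [← ZMod.intCast_zmod_eq_zero_iff_dvd, Int.cast_sub, h2, sub_self]
      · exact dvd_sub (((hF.1 x hx.1).loc w).1 hw) (((hF.1 y hy).loc w).1 hw)
    · intro z hz z' hz' hne
      rw [hG, Finset.mem_image] at hz hz'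
      obtain ⟨x, hx, rfl⟩ := hz
      obtain ⟨x', hx', rfl⟩ := hz'
      rw [Finset.mem_filter] at hx hx'
      have h1 : x / y / (x' / y) = x / x' := by
        rw [div_div_div_cancel_right]
      rw [h1]
      exact hF.2 x hx.1 x' hx'.1 fun h => hne (by rw [h])
  refine hcard.trans (Nat.mul_le_mul_left _ ?_)
  exact Finset.card_le_univ _

end Pool.Agent.Helper31.LE
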